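import Mathlib

set_option autoImplicit false

namespace Pool.Agent.Results.MP_b00834_co.CircumferenceAtLeastRank

open Set Matroid

variable {α : Type*}

/-- closure of `(C \ S) ∪ J` -/
def L (M : Matroid α) (C J S : Set α) : Set α := M.closure ((C \ S) ∪ J)

lemma L_anti {M : Matroid α} {C J S T : Set α} (h : S ⊆ T) : L M C J T ⊆ L M C J S :=
  M.closure_subset_closure (union_subset_union_left _ (sdiff_subset_sdiff_right h))

lemma L_inter {M : Matroid α} {C J S T : Set α} {x : α} (hI : M.Indep ((C \ {x}) ∪ J))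
    (hS : x ∈ S) (hT : x ∈ T) {e : α} (h1 : e ∈ L M C J S) (h2 : e ∈ L M C J T) :
    e ∈ L M C J (S ∪ T) := by
  have hU : M.Indep (((C \ S) ∪ J) ∪ ((C \ T) ∪ J)) := by
    apply hI.subset
    rintro a (⟨⟨haC, haS⟩ | haJ⟩ | ⟨⟨haC, haT⟩ | haJ⟩)
    · exact Or.inl ⟨haC, fun h => haS (by rw [mem_singleton_iff.1 h]; exact hS)⟩
    · exact Or.inr ‹_›
    · exact Or.inl ⟨‹_›, fun h => ‹a ∉ T› (by rw [mem_singleton_iff.1 h]; exact hT)⟩
    · exact Or.inr ‹_›
  have h := hU.closure_inter_eq_inter_closure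
  have h3 : e ∈ M.closure ((C \ S) ∪ J) ∩ M.closure ((C \ T) ∪ J) := ⟨h1, h2⟩
  rw [← h] at h3
  have h4 : (((C \ S) ∪ J) ∩ ((C \ T) ∪ J)) = (C \ (S ∪ T)) ∪ J := by
    ext a
    simp only [mem_inter_iff, mem_union, mem_sdiff]
    tauto
  rw [h4] at h3
  exact h3

lemma L_chain {M : Matroid α} {C J : Set α} {p : ℕ → α}
    (hI : ∀ n, M.Indep ((C \ {p n}) ∪ J)) {e : α} (he : ∀ n, e ∈ L M C J {p n}) (a : ℕ) :
    ∀ k : ℕ, (∀ n, a ≤ n → n < a + k → e ∈ L M C J {p n, p (n+1)}) →
      e ∈ L M C J (p '' Icc a (a + k)) := by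
  intro k
  induction k with
  | zero =>
    intro _
    have : p '' Icc a (a + 0) = {p a} := by simp
    rw [this]; exact he a
  | succ k ih =>
    intro h
    have h1 := ih (fun n hn hn' => h n hn (by omega))
    have h2 := h (a + k) (by omega) (by omega)
    have h3 := L_inter (hI (a + k)) (S := p '' Icc a (a + k)) (T := {p (a+k), p (a+k+1)})
      ⟨a + k, ⟨by omega, le_refl _⟩, rfl⟩ (by simp) h1 h2
    refine L_anti ?_ h3
    rintro _ ⟨n, ⟨hn1, hn2⟩, rfl⟩
    rcases Nat.lt_or_ge n (a + k + 1) with h | h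
    · exact Or.inl ⟨n, ⟨hn1, by omega⟩, rfl⟩
    · have : n = a + k + 1 := by omega
      subst this
      exact Or.inr (by simp)

/-- enumeration of a finite set, with three prescribed places -/
lemma enum3 {C : Set α} (hC : C.Finite) {c : ℕ} (hc : C.ncard = c) (h3 : 3 ≤ c) {x y z : α}
    (hx : x ∈ C) (hy : y ∈ C) (hz : z ∈ C) (hxy : x ≠ y) (hxz : x ≠ z) (hyz : y ≠ z) :
    ∃ p : ℕ → α, (∀ n, p (n + c) = p n) ∧ (∀ n, p n ∈ C) ∧
      (∀ a ∈ C, ∃ n, n < c ∧ p n = a) ∧ (∀ m n, m < c → n < c → p m = p n → m = n) ∧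
      p 0 = x ∧ p 1 = y ∧ p (c - 1) = z := by
  classical
  haveI : Fintype C := hC.fintype
  have hcard : Fintype.card C = c := by
    rw [← hc, Set.ncard_eq_toFinset_card' C]; simp
  let e : Fin c ≃ C := (Fintype.equivFinOfCardEq hcard).symm
  have h0 : 0 < c := by omega
  let u : Fin c := e.symm ⟨x, hx⟩
  let v : Fin c := e.symm ⟨y, hy⟩
  let w : Fin c := e.symm ⟨z, hz⟩
  have huv : u ≠ v := by
    intro h; apply hxy; simpa [u, v] using h
  have huw : u ≠ w := by
    intro h; apply hxz; simpa [u, w] using h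
  have hvw : v ≠ w := by
    intro h; apply hyz; simpa [v, w] using h
  let i0 : Fin c := ⟨0, h0⟩
  let i1 : Fin c := ⟨1, by omega⟩
  let i2 : Fin c := ⟨c-1, by omega⟩
  have h01 : i0 ≠ i1 := by simp [i0, i1]
  have h02 : i0 ≠ i2 := by simp [i0, i2]; omega
  have h12 : i1 ≠ i2 := by simp [i1, i2]; omega
  -- the permutation
  let s1 : Equiv.Perm (Fin c) := Equiv.swap i0 u
  have hs1 : s1 i0 = u := Equiv.swap_apply_left _ _
  let s2 : Equiv.Perm (Fin c) := Equiv.swap i1 (s1.symm v)
  have e1 : s1.symm v ≠ i0 := by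
    intro h; apply huv; rw [← hs1, ← h]; simp
  have hs2 : s1 (s2 i0) = u := by
    have : s2 i0 = i0 := Equiv.swap_apply_of_ne_of_ne h01 e1.symm
    rw [this, hs1]
  have hs2' : s1 (s2 i1) = v := by
    have : s2 i1 = s1.symm v := Equiv.swap_apply_left _ _
    rw [this]; simp
  let s : Equiv.Perm (Fin c) := s2.trans s1
  have hs0 : s i0 = u := hs2
  have hs1' : s i1 = v := hs2'
  let s3 : Equiv.Perm (Fin c) := Equiv.swap i2 (s.symm w)
  have e2 : s.symm w ≠ i0 := by
    intro h; apply huw; rw [← hs0, ← h]; simp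
  have e3 : s.symm w ≠ i1 := by
    intro h; apply hvw; rw [← hs1', ← h]; simp
  have t0 : s (s3 i0) = u := by
    have : s3 i0 = i0 := Equiv.swap_apply_of_ne_of_ne h02 e2.symm
    rw [this, hs0]
  have t1 : s (s3 i1) = v := by
    have : s3 i1 = i1 := Equiv.swap_apply_of_ne_of_ne h12 e3.symm
    rw [this, hs1']
  have t2 : s (s3 i2) = w := by
    have : s3 i2 = s.symm w := Equiv.swap_apply_left _ _
    rw [this]; simp
  refine ⟨fun n => (e (s (s3 ⟨n % c, Nat.mod_lt _ h0⟩)) : α), ?_, ?_, ?_, ?_, ?_, ?_, ?_⟩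
  · intro n; simp
  · intro n; exact Subtype.coe_prop _
  · intro a ha
    obtain ⟨j, hj⟩ : ∃ j : Fin c, (e (s (s3 j)) : α) = a := by
      refine ⟨s3.symm (s.symm (e.symm ⟨a, ha⟩)), ?_⟩
      simp
    refine ⟨j.1, j.2, ?_⟩
    simp only [Nat.mod_eq_of_lt j.2]
    exact hj
  · intro m n hm hn h
    simp only [Nat.mod_eq_of_lt hm, Nat.mod_eq_of_lt hn] at h
    have := s3.injective (s.injective (e.injective (Subtype.ext h)))
    simpa using this
  · simp only [Nat.zero_mod]
    change (e (s (s3 i0)) : α) = x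
    rw [t0]; simp [u]
  · simp only [Nat.mod_eq_of_lt (show 1 < c by omega)]
    change (e (s (s3 i1)) : α) = y
    rw [t1]; simp [v]
  · simp only [Nat.mod_eq_of_lt (show c - 1 < c by omega)]
    change (e (s (s3 i2)) : α) = z
    rw [t2]; simp [w]

/-- enumeration of a finite set -/
lemma enum {C : Set α} (hC : C.Finite) {c : ℕ} (hc : C.ncard = c) (h0 : 0 < c) :
    ∃ p : ℕ → α, (∀ n, p (n + c) = p n) ∧ (∀ n, p n ∈ C) ∧
      (∀ a ∈ C, ∃ n, n < c ∧ p n = a) ∧ (∀ m n, m < c → n < c → p m = p n → m = n) := by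
  classical
  haveI : Fintype C := hC.fintype
  have hcard : Fintype.card C = c := by
    rw [← hc, Set.ncard_eq_toFinset_card' C]; simp
  let e : Fin c ≃ C := (Fintype.equivFinOfCardEq hcard).symm
  refine ⟨fun n => (e ⟨n % c, Nat.mod_lt _ h0⟩ : α), ?_, ?_, ?_, ?_⟩
  · intro n; simp
  · intro n; exact Subtype.coe_prop _
  · intro a ha
    obtain ⟨j, hj⟩ : ∃ j : Fin c, (e j : α) = a := by
      refine ⟨e.symm ⟨a, ha⟩, ?_⟩
      simp
    refine ⟨j.1, j.2, ?_⟩
    simp only [Nat.mod_eq_of_lt j.2]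
    exact hj
  · intro m n hm hn h
    simp only [Nat.mod_eq_of_lt hm, Nat.mod_eq_of_lt hn] at h
    have := e.injective (Subtype.ext h)
    simpa using this

/-- covering twice criterion -/
lemma two_of {c : ℕ} (h0 : 0 < c) {E : Set α} {G : Fin c → Set α} {e : α} (he : e ∈ E)
    (h : ∀ i0 : Fin c, ¬ ∀ i, i ≠ i0 → e ∈ G i) :
    ∃ i j : Fin c, i ≠ j ∧ e ∈ E \ G i ∧ e ∈ E \ G j := by
  by_contra hcon
  push Not at hcon
  by_cases hh : ∃ i, e ∉ G i
  · obtain ⟨i0, hi0⟩ := hh
    apply h i0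
    intro i hi
    by_contra hG
    exact hcon i i0 hi ⟨he, hG⟩ ⟨he, hi0⟩
  · push Not at hh
    exact h ⟨0, h0⟩ (fun i _ => hh i)


/-- the chain argument around the whole circuit -/
lemma cyc {M : Matroid α} {C : Set α} {p : ℕ → α} {c : ℕ} (h0 : 0 < c)
    (hper : ∀ n, p (n + c) = p n) (hsurj : ∀ a ∈ C, ∃ n, n < c ∧ p n = a)
    (hI : ∀ n, M.Indep (C \ {p n})) {e : α} (he : ∀ n, e ∈ M.closure (C \ {p n})) {i0 : ℕ}
    (hi0 : i0 < c) (h : ∀ i, i < c → i ≠ i0 → e ∈ M.closure (C \ {p i, p (i+1)})) :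
    e ∈ M.closure ∅ := by
  have h1 := L_chain (M := M) (C := C) (J := ∅) (p := p) (by simpa using hI) (e := e)
    (by intro n; simpa [L] using he n) (i0 + 1) (c - 1) (by
      intro n hn hn'
      rcases Nat.lt_or_ge n c with h2 | h2
      · have := h n h2 (by omega)
        simpa [L] using this
      · obtain ⟨m, rfl⟩ : ∃ m, n = m + c := ⟨n - c, by omega⟩
        have := h m (by omega) (by omega)
        rw [hper m, show m + c + 1 = (m + 1) + c by ring, hper (m+1)]
        simpa [L] using this)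
  have h2 : p '' Icc (i0 + 1) (i0 + 1 + (c - 1)) ⊇ C := by
    intro a ha
    obtain ⟨n, hn, rfl⟩ := hsurj a ha
    rcases Nat.lt_or_ge i0 n with h2 | h2
    · exact ⟨n, ⟨by omega, by omega⟩, rfl⟩
    · exact ⟨n + c, ⟨by omega, by omega⟩, hper n⟩
  have h3 := L_anti (M := M) (J := ∅) h2 h1
  simpa [L] using h3

/-- exchange lemma -/
lemma exch {M : Matroid α} {C X : Set α} {e d d' : α} (hX : X ⊆ C)
    (he : e ∉ M.closure C) (hd : d ∉ M.closure C)
    (h1 : e ∈ M.closure (X ∪ {d})) (h2 : e ∈ M.closure (X ∪ {d'})) :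
    d' ∈ M.closure (X ∪ {d}) := by
  have heX : e ∉ M.closure X := fun h => he (M.closure_subset_closure hX h)
  have hdX : d ∉ M.closure X := fun h => hd (M.closure_subset_closure hX h)
  rw [union_singleton] at h1 h2 ⊢
  have h3 := M.closure_exchange ⟨h1, heX⟩
  have h4 : insert e X ∩ M.E ⊆ M.closure (insert d' X) := by
    rintro a ⟨ha, haE⟩
    rcases ha with rfl | ha
    · exact h2
    · exact M.mem_closure_of_mem' (Or.inr ha)
  have h5 : d ∈ M.closure (insert d' X) := by
    have := M.closure_subset_closure h4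
    rw [closure_inter_ground, closure_closure] at this
    exact this h3.1
  exact (M.closure_exchange ⟨h5, hdX⟩).1


lemma p_ne {C : Set α} {p : ℕ → α} {c : ℕ} (h2 : 2 ≤ c)
    (hper : ∀ n, p (n + c) = p n) (hinj : ∀ m n, m < c → n < c → p m = p n → m = n)
    {i : ℕ} (hi : i < c) : p (i+1) ≠ p i := by
  intro h
  rcases Nat.lt_or_ge (i+1) c with h1 | h1
  · have := hinj _ _ h1 hi h
    omega
  · have h3 : i + 1 = 0 + c := by omega
    rw [h3, hper 0] at h
    have := hinj _ _ (by omega) hi h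
    omega

lemma no_loop {M : Matroid α} (h2 : 2 ≤ M.E.ncard)
    (hconn : ∀ e ∈ M.E, ∀ f ∈ M.E, ∃ C : Set α, M.IsCircuit C ∧ e ∈ C ∧ f ∈ C) {e : α}
    (he : e ∈ M.E) : e ∉ M.closure ∅ := by
  intro h
  have h1 : M.IsCircuit {e} := singleton_isCircuit.2 h
  obtain ⟨f, hf, hfe⟩ := Set.exists_ne_of_one_lt_ncard (show 1 < M.E.ncard by omega) e
  obtain ⟨K, hK, heK, hfK⟩ := hconn e he f hf
  have := h1.eq_of_subset_isCircuit hK (by simpa using heK)
  rw [← this] at hfK
  exact hfe hfK

lemma two_le {M : Matroid α} [M.Finite] (h2 : 2 ≤ M.E.ncard)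
    (hconn : ∀ e ∈ M.E, ∀ f ∈ M.E, ∃ C : Set α, M.IsCircuit C ∧ e ∈ C ∧ f ∈ C) {c : ℕ}
    (hmax : ∀ C : Set α, M.IsCircuit C → C.ncard ≤ c) : 2 ≤ c := by
  obtain ⟨e, he⟩ : M.E.Nonempty := by
    rw [← Set.ncard_pos M.ground_finite]; omega
  obtain ⟨f, hf, hfe⟩ := Set.exists_ne_of_one_lt_ncard (show 1 < M.E.ncard by omega) e
  obtain ⟨K, hK, heK, hfK⟩ := hconn e he f hf
  have h3 := hmax K hK
  have hKf : K.Finite := M.ground_finite.subset hK.subset_ground
  have : 1 < K.ncard := (Set.one_lt_ncard hKf).2 ⟨e, heK, f, hfK, hfe.symm⟩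
  omega

lemma caseA {M : Matroid α} [M.Finite] (h2 : 2 ≤ M.E.ncard)
    (hconn : ∀ e ∈ M.E, ∀ f ∈ M.E, ∃ C : Set α, M.IsCircuit C ∧ e ∈ C ∧ f ∈ C) {c : ℕ}
    (hc2 : 2 ≤ c) {C : Set α} (hC : M.IsCircuit C) (hCc : C.ncard = c)
    (hsp : M.closure C = M.E) :
    ∃ D : Fin c → Set α,
      (∀ i, M.IsCocircuit (D i)) ∧
      ∀ e ∈ M.E, ∃ i j : Fin c, i ≠ j ∧ e ∈ D i ∧ e ∈ D j := by
  obtain ⟨p, hper, hmem, hsurj, hinj⟩ :=
    enum (M.ground_finite.subset hC.subset_ground) hCc (by omega)
  have hcl : ∀ n, M.closure (C \ {p n}) = M.E := fun n => by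
    rw [hC.closure_sdiff_singleton_eq, hsp]
  have hB : ∀ n, M.IsBase (C \ {p n}) := fun n =>
    isBase_iff_indep_closure_eq.2 ⟨hC.sdiff_singleton_indep (hmem n), hcl n⟩
  refine ⟨fun i => M.E \ M.closure (C \ {p i, p (i+1)}), ?_, ?_⟩
  · intro i
    have h1 := (hB i).compl_closure_sdiff_singleton_isCocircuit (e := p (i+1))
      ⟨hmem _, p_ne (C := C) hc2 hper hinj i.2⟩
    rw [sdiff_sdiff, singleton_union] at h1
    exact h1
  · intro e he
    refine two_of (by omega) (G := fun i => M.closure (C \ {p i, p (i+1)})) he ?_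
    intro i0 h
    refine no_loop h2 hconn he (cyc (by omega) hper hsurj (fun n => (hB n).indep) ?_ i0.2 ?_)
    · intro n; rw [hcl]; exact he
    · intro i hi hne
      exact h ⟨i, hi⟩ (fun h => hne (by rw [← h]))


section caseB

variable {M : Matroid α} {C : Set α} {c : ℕ}

/-- `(C \ {x}) ∪ {d}` is a base. -/
lemma base_B [M.Finite] (hC : M.IsCircuit C) (hCc : C.ncard = c) (hc2 : 2 ≤ c)
    (hbase : ∀ B : Set α, M.IsBase B → B.ncard ≤ c) {x d : α} (hx : x ∈ C) (hdE : d ∈ M.E)
    (hd : d ∉ M.closure C) : M.IsBase ((C \ {x}) ∪ {d}) := by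
  have hCf : C.Finite := M.ground_finite.subset hC.subset_ground
  have h1 : M.Indep (C \ {x}) := hC.sdiff_singleton_indep hx
  have hdC : d ∉ C := fun h => hd (M.subset_closure C hC.subset_ground h)
  have h2 : M.Indep ((C \ {x}) ∪ {d}) := by
    rw [union_singleton]
    rw [h1.insert_indep_iff]
    left
    refine ⟨hdE, ?_⟩
    rw [hC.closure_sdiff_singleton_eq]; exact hd
  obtain ⟨B, hB, hsub⟩ := h2.exists_isBase_superset
  have h3 := hbase B hB
  have h4 : ((C \ {x}) ∪ {d}).ncard = c := by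
    rw [union_singleton, Set.ncard_insert_of_notMem (fun h => hdC h.1) (hCf.sdiff),
      Set.ncard_sdiff_singleton_of_mem hx, hCc]
    omega
  have h5 : ((C \ {x}) ∪ {d}) = B := by
    apply Set.eq_of_subset_of_ncard_le hsub (by rw [h4]; exact h3)
      (M.ground_finite.subset hB.subset_ground)
  rw [h5]; exact hB

/-- existence of two independent directions outside the closure of the circuit -/
lemma exists_dd (hC : M.IsCircuit C) (hCne : C.Nonempty)
    (hconn : ∀ e ∈ M.E, ∀ f ∈ M.E, ∃ C : Set α, M.IsCircuit C ∧ e ∈ C ∧ f ∈ C)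
    (hns : M.closure C ≠ M.E) :
    ∃ d d', d ∈ M.E ∧ d' ∈ M.E ∧ d ∉ M.closure C ∧ d' ∉ M.closure C ∧ d' ∉ M.closure {d} := by
  obtain ⟨d, hdE, hd⟩ : ∃ d ∈ M.E, d ∉ M.closure C := by
    by_contra hcon
    push Not at hcon
    exact hns ((M.closure_subset_ground C).antisymm hcon)
  obtain ⟨x, hx⟩ := hCne
  obtain ⟨K, hK, hxK, hdK⟩ := hconn x (hC.subset_ground hx) d hdE
  have hxd : x ≠ d := by
    rintro rfl
    exact hd (M.subset_closure C hC.subset_ground hx)
  refine ⟨d, ?_⟩
  by_contra hcon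
  push Not at hcon
  have hKsub : K \ {d} ⊆ M.closure C := by
    intro z hz
    by_contra hzC
    have hzE : z ∈ M.E := hK.subset_ground hz.1
    have h1 := hcon z hdE hzE hd hzC
    have hzd : z ≠ d := fun h => hz.2 h
    obtain ⟨K', hK's, hK', hzK'⟩ := (M.mem_closure_iff_exists_isCircuit (X := {d})
      (by simpa using hzd)).1 h1
    have h2 : K' ⊆ K := by
      intro a ha
      rcases hK's ha with rfl | ha
      · exact hz.1
      · rw [mem_singleton_iff.1 ha]; exact hdK
    have h3 := hK'.eq_of_subset_isCircuit hK h2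
    rw [← h3] at hxK
    rcases hK's hxK with h | h
    · rw [← h] at hzC
      exact hzC (M.subset_closure C hC.subset_ground hx)
    · exact hxd h
  have h4 : d ∈ M.closure (K \ {d}) := by
    rw [hK.closure_sdiff_singleton_eq]
    exact M.subset_closure K hK.subset_ground hdK
  have h5 := M.closure_subset_closure hKsub h4
  rw [closure_closure] at h5
  exact hd h5

/-- F2 -/
lemma F2 [M.Finite] (hC : M.IsCircuit C) (hCc : C.ncard = c) (hc2 : 2 ≤ c)
    (hmax : ∀ C : Set α, M.IsCircuit C → C.ncard ≤ c)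
    (hbase : ∀ B : Set α, M.IsBase B → B.ncard ≤ c) {x d e : α} (hx : x ∈ C) (hdE : d ∈ M.E)
    (hd : d ∉ M.closure C) (heE : e ∈ M.E) (he : e ∉ M.closure C) (hed : e ≠ d) :
    ∃ q ∈ C, q ≠ x ∧ e ∈ L M C {d} {x, q} := by
  have hCf : C.Finite := M.ground_finite.subset hC.subset_ground
  have hdC : d ∉ C := fun h => hd (M.subset_closure C hC.subset_ground h)
  have heC : e ∉ C := fun h => he (M.subset_closure C hC.subset_ground h)
  have hB := base_B hC hCc hc2 hbase hx hdE hd
  set B := (C \ {x}) ∪ {d} with hBdef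
  have heB : e ∉ B := by
    rintro (h | h)
    · exact heC h.1
    · exact hed h
  have hK := hB.fundCircuit_isCircuit heE heB
  have hsub := M.fundCircuit_subset_insert e B
  have hBf : B.Finite := M.ground_finite.subset hB.subset_ground
  have hBc : B.ncard = c := by
    rw [hBdef, union_singleton, Set.ncard_insert_of_notMem (fun h => hdC h.1) (hCf.sdiff),
      Set.ncard_sdiff_singleton_of_mem hx, hCc]
    omega
  have hne : ∃ q ∈ insert e B, q ∉ M.fundCircuit e B := by
    by_contra hcon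
    push Not at hcon
    have h1 : M.fundCircuit e B = insert e B := hsub.antisymm hcon
    have h2 := hmax _ hK
    rw [h1, Set.ncard_insert_of_notMem heB hBf] at h2
    omega
  obtain ⟨q, hq, hqK⟩ := hne
  have hqe : q ≠ e := by
    rintro rfl
    exact hqK (M.mem_fundCircuit _ _)
  have hqB : q ∈ B := by
    rcases hq with h | h
    · exact absurd h hqe
    · exact h
  have heK : e ∈ M.closure (M.fundCircuit e B \ {e}) := by
    rw [hK.closure_sdiff_singleton_eq]
    exact M.subset_closure _ hK.subset_ground (M.mem_fundCircuit _ _)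
  have hsub2 : M.fundCircuit e B \ {e} ⊆ B \ {q} := by
    rintro a ⟨ha, hae⟩
    rcases hsub ha with h | h
    · exact absurd h hae
    · exact ⟨h, fun h' => hqK (by rw [← mem_singleton_iff.1 h']; exact ha)⟩
  have heq : e ∈ M.closure (B \ {q}) := M.closure_subset_closure hsub2 heK
  rcases hqB with h | h
  · refine ⟨q, h.1, h.2, ?_⟩
    refine M.closure_subset_closure ?_ heq
    rintro a ⟨ha | ha, haq⟩
    · exact Or.inl ⟨ha.1, by
        rintro (h' | h')
        · exact ha.2 h'
        · exact haq h'⟩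
    · exact Or.inr ha
  · exfalso
    apply he
    refine M.closure_subset_closure ?_ heq
    rintro a ⟨ha | ha, haq⟩
    · exact ha.1
    · exact absurd (by rw [mem_singleton_iff.1 ha, mem_singleton_iff.1 h]; rfl) haq

/-- F3 -/
lemma F3 [M.Finite] (hC : M.IsCircuit C) (hCc : C.ncard = c) (hc2 : 2 ≤ c)
    (hbase : ∀ B : Set α, M.IsBase B → B.ncard ≤ c) {x d d' : α} (hx : x ∈ C) (hdE : d ∈ M.E)
    (hd : d ∉ M.closure C) (hd'E : d' ∈ M.E) (hd' : d' ∉ M.closure C)
    (hdd : d' ∉ M.closure {d}) :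
    ∃ y ∈ C, y ≠ x ∧ d' ∉ L M C {d} {x, y} := by
  have heC : d' ∉ C := fun h => hd' (M.subset_closure C hC.subset_ground h)
  have hdd' : d' ≠ d := by
    rintro rfl
    exact hdd (M.subset_closure _ (by simpa using hdE) rfl)
  have hB := base_B hC hCc hc2 hbase hx hdE hd
  set B := (C \ {x}) ∪ {d} with hBdef
  have heB : d' ∉ B := by
    rintro (h | h)
    · exact heC h.1
    · exact hdd' h
  have hK := hB.fundCircuit_isCircuit hd'E heB
  have hsub := M.fundCircuit_subset_insert d' B
  by_contra hcon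
  push Not at hcon
  apply hdd
  have heK : d' ∈ M.closure (M.fundCircuit d' B \ {d'}) := by
    rw [hK.closure_sdiff_singleton_eq]
    exact M.subset_closure _ hK.subset_ground (M.mem_fundCircuit _ _)
  refine M.closure_subset_closure ?_ heK
  rintro a ⟨ha, had⟩
  rcases hsub ha with h | h
  · exact absurd h had
  rcases h with h | h
  · exfalso
    have h1 := hcon a h.1 h.2
    have h2 : (C \ {x, a}) ∪ {d} = B \ {a} := by
      ext b
      simp only [hBdef, mem_union, mem_sdiff, mem_insert_iff, mem_singleton_iff]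
      constructor
      · rintro (⟨hb, hb'⟩ | rfl)
        · push Not at hb'
          exact ⟨Or.inl ⟨hb, hb'.1⟩, hb'.2⟩
        · refine ⟨Or.inr rfl, ?_⟩
          rintro rfl
          exact hd (M.subset_closure C hC.subset_ground h.1)
      · rintro ⟨⟨hb, hb'⟩ | rfl, hba⟩
        · exact Or.inl ⟨hb, by tauto⟩
        · exact Or.inr rfl
    rw [L, h2] at h1
    have h3 := (hB.indep.mem_fundCircuit_iff (by rw [hB.closure_eq]; exact hd'E) heB).1 ha
    have hda : d' ≠ a := fun h' => heC (h' ▸ h.1)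
    rw [← insert_sdiff_singleton_comm hda, (hB.indep.sdiff _).insert_indep_iff] at h3
    rcases h3 with h3 | h3
    · exact h3.2 h1
    · exact heB h3.1
  · exact h

end caseB


/-- the case where the largest circuit does not span -/
lemma caseB {M : Matroid α} [M.Finite] (h2 : 2 ≤ M.E.ncard)
    (hconn : ∀ e ∈ M.E, ∀ f ∈ M.E, ∃ C : Set α, M.IsCircuit C ∧ e ∈ C ∧ f ∈ C) {c : ℕ}
    (hc2 : 2 ≤ c) {C : Set α} (hC : M.IsCircuit C) (hCc : C.ncard = c)
    (hmax : ∀ C : Set α, M.IsCircuit C → C.ncard ≤ c)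
    (hbase : ∀ B : Set α, M.IsBase B → B.ncard ≤ c)
    (hns : M.closure C ≠ M.E) :
    ∃ D : Fin c → Set α,
      (∀ i, M.IsCocircuit (D i)) ∧
      ∀ e ∈ M.E, ∃ i j : Fin c, i ≠ j ∧ e ∈ D i ∧ e ∈ D j := by
  have hCf : C.Finite := M.ground_finite.subset hC.subset_ground
  have hCE := hC.subset_ground
  have hCne : C.Nonempty := by
    rw [← Set.ncard_pos hCf]; omega
  obtain ⟨d, d', hdE, hd'E, hd, hd', hdd⟩ := exists_dd hC hCne hconn hns
  have hdd' : d' ≠ d := by
    rintro rfl
    exact hdd (M.subset_closure _ (by simpa using hdE) rfl)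
  obtain ⟨x, hx⟩ := hCne
  obtain ⟨y, hy, hyx, hF3⟩ := F3 hC hCc hc2 hbase hx hdE hd hd'E hd' hdd
  obtain ⟨z, hz, hzy, hF2⟩ := F2 hC hCc hc2 hmax hbase hy hdE hd hd'E hd' hdd'
  have hzx : z ≠ x := by
    rintro rfl
    rw [Set.pair_comm] at hF2
    exact hF3 hF2
  have hbase' : ∀ a ∈ C, ∀ b, b ∈ M.E → b ∉ M.closure C → M.IsBase ((C \ {a}) ∪ {b}) :=
    fun a ha b hbE hb => base_B hC hCc hc2 hbase ha hbE hb
  have hF4 : d' ∉ L M C {d} {x, z} := by
    intro h
    have h1 := L_inter (hbase' z hz d hdE hd).indep (S := {x, z}) (T := {y, z})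
      (by simp) (by simp) h hF2
    exact hF3 (L_anti (by
      rintro a (rfl | ha)
      · simp
      · rw [mem_singleton_iff.1 ha]; simp) h1)
  have h3 : 3 ≤ c := by
    have h4 : ({x, z, y} : Set α).ncard = 3 := by
      rw [Set.ncard_eq_three]
      exact ⟨x, z, y, hzx.symm, hyx.symm, hzy, rfl⟩
    have h5 : ({x, z, y} : Set α) ⊆ C := by
      rintro a (rfl | rfl | rfl) <;> assumption
    have := Set.ncard_le_ncard h5 hCf
    omega
  obtain ⟨p, hper, hmem, hsurj, hinj, hp0, hp1, hpc⟩ :=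
    enum3 hCf hCc h3 hx hz hy hzx.symm hyx.symm hzy
  have hpc0 : p c = x := by
    have := hper 0
    rw [Nat.zero_add] at this
    rw [this, hp0]
  -- choice of the extra element
  let δ : ℕ → α := fun i => if i = 0 ∨ i = c - 1 then d' else d
  have hδE : ∀ i, δ i ∈ M.E := by
    intro i; simp only [δ]; split_ifs <;> assumption
  have hδ : ∀ i, δ i ∉ M.closure C := by
    intro i; simp only [δ]; split_ifs <;> assumption
  have hδ0 : δ 0 = d' := by simp [δ]
  have hδc : δ (c-1) = d' := by simp [δ]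
  have hδm : ∀ i, i ≠ 0 → i ≠ c - 1 → δ i = d := by
    intro i h1 h2; simp [δ, h1, h2]
  let G : ℕ → Set α := fun i => L M C {δ i} {p i, p (i+1)}
  have hG0 : G 0 = L M C {d'} {x, z} := by
    simp only [G]; rw [hδ0, hp0, Nat.zero_add, hp1]
  have hGc : G (c-1) = L M C {d'} {y, x} := by
    simp only [G]; rw [hδc, hpc, show c - 1 + 1 = c by omega, hpc0]
  have hGm : ∀ i, i ≠ 0 → i ≠ c - 1 → G i = L M C {d} {p i, p (i+1)} := by
    intro i h1 h2; simp only [G]; rw [hδm i h1 h2]
  refine ⟨fun i => M.E \ G i, ?_, ?_⟩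
  · intro i
    have h1 := (hbase' (p i) (hmem i) (δ i) (hδE i) (hδ i)).compl_closure_sdiff_singleton_isCocircuit
      (e := p (i+1)) (Or.inl ⟨hmem _, p_ne (C := C) hc2 hper hinj i.2⟩)
    have h4 : (((C \ {p i}) ∪ {δ i}) \ {p (i+1)}) = (C \ {p i, p (i+1)}) ∪ {δ i} := by
      ext b
      simp only [mem_union, mem_sdiff, mem_insert_iff, mem_singleton_iff]
      constructor
      · rintro ⟨⟨hb, hb'⟩ | rfl, hba⟩
        · exact Or.inl ⟨hb, by tauto⟩
        · exact Or.inr rfl
      · rintro (⟨hb, hb'⟩ | rfl)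
        · push Not at hb'
          exact ⟨Or.inl ⟨hb, hb'.1⟩, hb'.2⟩
        · refine ⟨Or.inr rfl, ?_⟩
          intro h
          exact hδ i (M.subset_closure C hCE (h ▸ hmem _))
    rw [h4] at h1
    exact h1
  · intro e he
    refine two_of (by omega) (G := fun i => G i) he ?_
    rintro ⟨i0, hi0⟩ h
    have hG : ∀ i, i < c → i ≠ i0 → e ∈ G i := by
      intro i hi hne
      exact h ⟨i, hi⟩ (fun h => hne (by simpa using congrArg Fin.val h))
    clear h
    by_cases heC : e ∈ M.closure C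
    · -- e in the closure of the circuit
      refine no_loop h2 hconn he (cyc (by omega) hper hsurj
        (fun n => hC.sdiff_singleton_indep (hmem n)) ?_ hi0 ?_)
      · intro n; rw [hC.closure_sdiff_singleton_eq]; exact heC
      · intro i hi hne
        have h1 : e ∈ M.closure ((C \ {p i, p (i+1)}) ∪ {δ i}) := hG i hi hne
        have h2 : e ∈ M.closure (C \ {p i}) := by
          rw [hC.closure_sdiff_singleton_eq]; exact heC
        have hI := (hbase' (p i) (hmem i) (δ i) (hδE i) (hδ i)).indep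
        have hU : M.Indep (((C \ {p i, p (i+1)}) ∪ {δ i}) ∪ (C \ {p i})) := by
          apply hI.subset
          rintro a ((ha | ha) | ha)
          · exact Or.inl ⟨ha.1, fun h => ha.2 (Or.inl h)⟩
          · exact Or.inr ha
          · exact Or.inl ha
        have h4 : e ∈ M.closure ((C \ {p i, p (i+1)}) ∪ {δ i}) ∩ M.closure (C \ {p i}) := ⟨h1, h2⟩
        rw [← hU.closure_inter_eq_inter_closure] at h4
        refine M.closure_subset_closure ?_ h4
        rintro a ⟨ha | ha, ha'⟩
        · exact ha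
        · exfalso
          rw [mem_singleton_iff.1 ha] at ha'
          exact hδ i (M.subset_closure C hCE ha'.1)
    · -- e outside the closure of the circuit
      have key0 : e ∈ L M C {d} {x, z} → e ∈ G 0 → False := by
        intro h1 h2
        rw [hG0] at h2
        exact hF4 (exch (sdiff_subset) heC hd h1 h2)
      have keyc : e ∈ L M C {d} {y, x} → e ∈ G (c-1) → False := by
        intro h1 h2
        rw [hGc] at h2
        have := exch (sdiff_subset) heC hd h1 h2
        rw [Set.pair_comm] at this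
        exact hF3 this
      by_cases hed : e ∈ M.closure {d}
      · have hall : ∀ S, e ∈ L M C {d} S := fun S =>
          M.closure_subset_closure subset_union_right hed
        rcases Nat.eq_zero_or_pos i0 with h0 | h0
        · exact keyc (hall _) (hG (c-1) (by omega) (by omega))
        · exact key0 (hall _) (hG 0 (by omega) (by omega))
      · have hed' : e ≠ d := by
          rintro rfl
          exact hed (M.subset_closure _ (by simpa using hdE) rfl)
        obtain ⟨q, hq, hqx, hF2e⟩ := F2 hC hCc hc2 hmax hbase hx hdE hd he heC hed'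
        obtain ⟨j, hj, rfl⟩ := hsurj q hq
        have hj0 : j ≠ 0 := by
          rintro rfl
          exact hqx hp0
        have hI : ∀ n, M.Indep ((C \ {p n}) ∪ {d}) := fun n => (hbase' _ (hmem n) d hdE hd).indep
        have hall : ∀ n, e ∈ L M C {d} {p n} := by
          intro n
          have := (hbase' _ (hmem n) d hdE hd).closure_eq
          rw [L, this]; exact he
        by_cases hi : i0 = 0 ∨ i0 = c - 1
        · -- chain over everything
          have h1 := L_chain hI hall 1 (c-2) (by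
            intro n hn hn'
            have := hG n (by omega) (by omega)
            rwa [hGm n (by omega) (by omega)] at this)
          have h4 := L_inter (hI j) (S := p '' Icc 1 (1 + (c-2))) (T := {x, p j})
            ⟨j, ⟨by omega, by omega⟩, rfl⟩ (by simp) h1 hF2e
          have h5 : C ⊆ p '' Icc 1 (1 + (c-2)) ∪ {x, p j} := by
            intro a ha
            obtain ⟨n, hn, rfl⟩ := hsurj a ha
            rcases Nat.eq_zero_or_pos n with h0 | h0
            · subst h0; rw [hp0]; right; simp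
            · left; exact ⟨n, ⟨h0, by omega⟩, rfl⟩
          have h6 := L_anti h5 h4
          apply hed
          simpa [L] using h6
        · push Not at hi
          rcases Nat.lt_or_ge i0 j with hji | hji
          · -- upper part
            have h1 := L_chain hI hall (i0+1) (c-1-(i0+1)) (by
              intro n hn hn'
              have := hG n (by omega) (by omega)
              rwa [hGm n (by omega) (by omega)] at this)
            have h4 := L_inter (hI j) (S := p '' Icc (i0+1) (i0+1 + (c-1-(i0+1))))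
              (T := {x, p j}) ⟨j, ⟨by omega, by omega⟩, rfl⟩ (by simp) h1 hF2e
            refine keyc ?_ (hG (c-1) (by omega) (by omega))
            refine L_anti ?_ h4
            rintro a (rfl | ha)
            · left; exact ⟨c-1, ⟨by omega, by omega⟩, hpc⟩
            · right; rw [mem_singleton_iff.1 ha]; simp
          · -- lower part
            have h1 := L_chain hI hall 1 (i0-1) (by
              intro n hn hn'
              have := hG n (by omega) (by omega)
              rwa [hGm n (by omega) (by omega)] at this)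
            have h4 := L_inter (hI j) (S := p '' Icc 1 (1 + (i0-1)))
              (T := {x, p j}) ⟨j, ⟨by omega, by omega⟩, rfl⟩ (by simp) h1 hF2e
            refine key0 ?_ (hG 0 (by omega) (by omega))
            refine L_anti ?_ h4
            rintro a (rfl | ha)
            · right; simp
            · left; exact ⟨1, ⟨by omega, by omega⟩, by rw [mem_singleton_iff.1 ha, hp1]⟩


/-- A finite connected matroid with at least two elements, whose largest circuit has at least as
many elements as a base, has a list of `c` cocircuits (`c` the size of a largest circuit) which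
covers every element at least twice. -/
theorem result {α : Type*} (M : Matroid α) (hfin : M.Finite) (h2 : 2 ≤ M.E.ncard)
    (hconn : ∀ e ∈ M.E, ∀ f ∈ M.E, ∃ C : Set α, M.IsCircuit C ∧ e ∈ C ∧ f ∈ C)
    (c : ℕ) (hex : ∃ C : Set α, M.IsCircuit C ∧ C.ncard = c)
    (hmax : ∀ C : Set α, M.IsCircuit C → C.ncard ≤ c)
    (hrank : ∀ B : Set α, M.IsBase B → B.ncard ≤ c) :
    ∃ D : Fin c → Set α,
      (∀ i, M.IsCocircuit (D i)) ∧
      ∀ e ∈ M.E, ∃ i j : Fin c, i ≠ j ∧ e ∈ D i ∧ e ∈ D j := by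
  haveI := hfin
  have hc2 := two_le h2 hconn hmax
  obtain ⟨C, hC, hCc⟩ := hex
  by_cases hsp : M.closure C = M.E
  · exact caseA h2 hconn hc2 hC hCc hsp
  · exact caseB h2 hconn hc2 hC hCc hmax hrank hsp

end Pool.Agent.Results.MP_b00834_co.CircumferenceAtLeastRank
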